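import Mathlib

/-!
# Iterated Frechet filters: definition
-/

namespace Pool.Agent.Helper85.DT

open Set Filter

/-- The iterated Frechet filters on `ℕ`: the least class of families of sets of natural numbers
that contains the principal ultrafilters and with each sequence `F 0, F 1, …` also the family of
the sets that belong to all but finitely many of the `F n`. -/
inductive IterFrechet : Set (Set ℕ) → Prop
  | pure (a : ℕ) : IterFrechet {A | a ∈ A}
  | lim (F : ℕ → Set (Set ℕ)) (hF : ∀ n, IterFrechet (F n)) :
      IterFrechet {A | ∃ m, ∀ n, m ≤ n → A ∈ F n}

end Pool.Agent.Helper85.DT
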