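import Pool.Agent.Helper85.DT.Space

/-!
# The classical delta-property, and the gamma-property at an ultrafilter
-/

namespace Pool.Agent.Helper85.DT

open Set Filter
open Pool.Agent.Helper85.DeltaGamma (IsOmegaCover plim setLiminf Closure HasDelta HasGamma
  HasClassicalDelta Nonprincipal)

/-- The images of iterated Frechet filters are iterated Frechet filters. -/
theorem IterFrechet.map {𝓕 : Set (Set ℕ)} (h : IterFrechet 𝓕) (g : ℕ → ℕ) :
    IterFrechet {A | g ⁻¹' A ∈ 𝓕} := by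
  induction h with
  | pure a => exact IterFrechet.pure (g a)
  | lim F hF ih => exact IterFrechet.lim (fun n => {A | g ⁻¹' A ∈ F n}) ih

/-- Every set in the closure under the limes inferior is the limit of a sequence of members of the
cover along an iterated Frechet filter. -/
theorem exists_iter {X : Type} {𝓤 : Set (Set X)} {Y : Set X} (h : Closure setLiminf 𝓤 Y) :
    ∃ (U : ℕ → Set X) (𝓕 : Set (Set ℕ)), (∀ n, U n ∈ 𝓤) ∧ IterFrechet 𝓕 ∧
      ∀ x, x ∈ Y ↔ {n | x ∈ U n} ∈ 𝓕 := by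
  induction h with
  | base U hU => exact ⟨fun _ => U, _, fun _ => hU, IterFrechet.pure 0, fun x => Iff.rfl⟩
  | lim Y hY ih =>
    choose U F hU hF hx using ih
    refine ⟨fun k => U k.unpair.1 k.unpair.2, _, fun k => hU _ _,
      IterFrechet.lim _ fun n => (hF n).map fun k => Nat.pair n k, fun x => ?_⟩
    have h1 : ∀ n, (fun k => Nat.pair n k) ⁻¹' {k | x ∈ U k.unpair.1 k.unpair.2} =
        {k | x ∈ U n k} := by
      intro n
      ext k
      simp
    constructor
    · rintro ⟨m, hm⟩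
      refine ⟨m, fun n hn => ?_⟩
      change (fun k => Nat.pair n k) ⁻¹' {k | x ∈ U k.unpair.1 k.unpair.2} ∈ F n
      rw [h1]
      exact (hx n x).1 (hm n hn)
    · rintro ⟨m, hm⟩
      refine ⟨m, fun n hn => ?_⟩
      have h2 : (fun k => Nat.pair n k) ⁻¹' {k | x ∈ U k.unpair.1 k.unpair.2} ∈ F n := hm n hn
      rw [h1] at h2
      exact (hx n x).2 h2

/-- `q` is above all the iterated Frechet filters. -/
theorem hasGamma_of_above {q : Ultrafilter ℕ}
    (hq : ∀ 𝓕 : Set (Set ℕ), IterFrechet 𝓕 → ∃ f : ℕ → ℕ, ∀ A ∈ 𝓕, f ⁻¹' A ∈ q)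
    (X : Type) [TopologicalSpace X] (hX : HasClassicalDelta X) : HasGamma X q := by
  intro 𝓤 h𝓤
  obtain ⟨U, 𝓕, hU, hF, hx⟩ := exists_iter (hX 𝓤 h𝓤)
  obtain ⟨f, hf⟩ := hq 𝓕 hF
  exact ⟨fun n => U (f n), fun n => hU _, fun x => hf _ ((hx x).1 (Set.mem_univ x))⟩

/-- A space for each iterated Frechet filter. -/
theorem exists_space {𝓕 : Set (Set ℕ)} (h : IterFrechet 𝓕) :
    ∃ (X : Type) (_ : TopologicalSpace X), T1Space X ∧ HasClassicalDelta X ∧
      (∀ p : Ultrafilter ℕ, Nonprincipal p → HasDelta X p) ∧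
      ∀ q : Ultrafilter ℕ, HasGamma X q → ∃ f : ℕ → ℕ, ∀ A ∈ 𝓕, f ⁻¹' A ∈ q := by
  obtain ⟨T, rfl⟩ := h.exists_tree
  exact ⟨Pt T, inferInstance, inferInstance,
    fun _ h𝓤 => closure_univ (fun _ => le_rfl) h𝓤,
    fun _ hp _ h𝓤 => closure_univ (absorbing_plim hp) h𝓤,
    fun q hq => below_of_hasGamma hq⟩

end Pool.Agent.Helper85.DT
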