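import Mathlib
import Pool.Agent.Helper85.DeltaGamma
import Pool.Agent.Helper85.DT.Defs

/-!
# `T₁` spaces with the classical delta-property from iterated Frechet filters
-/

namespace Pool.Agent.Helper85.DT

open Set Filter
open Pool.Agent.Helper85.DeltaGamma (IsOmegaCover plim setLiminf Closure HasDelta HasGamma
  HasClassicalDelta Nonprincipal)

/-- Well-founded trees with leaves labelled by natural numbers. -/
inductive Tr : Type
  | leaf : ℕ → Tr
  | node : (ℕ → Tr) → Tr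

/-- The large sets of a tree. -/
def Tr.Large (A : Set ℕ) : Tr → Prop
  | Tr.leaf a => a ∈ A
  | Tr.node c => ∃ m, ∀ n, m ≤ n → (c n).Large A

/-- The children of a tree (a leaf is its own child). -/
def Tr.child : Tr → ℕ → Tr
  | Tr.leaf a, _ => Tr.leaf a
  | Tr.node c, n => c n

/-- The subtree at an address. -/
def Tr.sub (T : Tr) (l : List ℕ) : Tr := l.foldl Tr.child T

theorem Tr.sub_nil (T : Tr) : T.sub [] = T := rfl

theorem Tr.sub_append (T : Tr) (l : List ℕ) (n : ℕ) : T.sub (l ++ [n]) = (T.sub l).child n := by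
  unfold Tr.sub
  rw [List.foldl_append]
  rfl

theorem Tr.large_iff (A : Set ℕ) (T : Tr) :
    T.Large A ↔ ∃ m, ∀ n, m ≤ n → (T.child n).Large A := by
  cases T with
  | leaf a =>
    constructor
    · intro h
      exact ⟨0, fun _ _ => h⟩
    · rintro ⟨m, hm⟩
      exact hm m le_rfl
  | node c => exact Iff.rfl

theorem Tr.Large.mono {A B : Set ℕ} (hAB : A ⊆ B) : ∀ {T : Tr}, T.Large A → T.Large B := by
  intro T
  induction T with
  | leaf a => exact fun h => hAB h
  | node c ih =>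
    rintro ⟨m, hm⟩
    exact ⟨m, fun n hn => ih n (hm n hn)⟩

theorem Tr.Large.inter {A B : Set ℕ} : ∀ {T : Tr}, T.Large A → T.Large B → T.Large (A ∩ B) := by
  intro T
  induction T with
  | leaf a => exact fun h h' => ⟨h, h'⟩
  | node c ih =>
    rintro ⟨m, hm⟩ ⟨m', hm'⟩
    exact ⟨max m m', fun n hn => ih n (hm n (le_trans (le_max_left _ _) hn))
      (hm' n (le_trans (le_max_right _ _) hn))⟩

theorem Tr.Large.nonempty {A : Set ℕ} : ∀ {T : Tr}, T.Large A → A.Nonempty := by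
  intro T
  induction T with
  | leaf a => exact fun h => ⟨a, h⟩
  | node c ih =>
    rintro ⟨m, hm⟩
    exact ih m (hm m le_rfl)

theorem Tr.large_univ : ∀ T : Tr, T.Large Set.univ := by
  intro T
  induction T with
  | leaf a => exact Set.mem_univ a
  | node c ih => exact ⟨0, fun n _ => ih n⟩

/-- Every iterated Frechet filter is given by a tree. -/
theorem IterFrechet.exists_tree {𝓕 : Set (Set ℕ)} (h : IterFrechet 𝓕) :
    ∃ T : Tr, 𝓕 = {A | T.Large A} := by
  induction h with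
  | pure a => exact ⟨Tr.leaf a, rfl⟩
  | lim F hF ih =>
    choose c hc using ih
    refine ⟨Tr.node c, ?_⟩
    ext A
    constructor
    · rintro ⟨m, hm⟩
      refine ⟨m, fun n hn => ?_⟩
      have h1 := hm n hn
      rw [hc n] at h1
      exact h1
    · rintro ⟨m, hm⟩
      refine ⟨m, fun n hn => ?_⟩
      rw [hc n]
      exact hm n hn

/-- The points of the space of the tree `T`: the large sets. -/
structure Pt (T : Tr) where
  /-- the set -/
  carrier : Set ℕ
  /-- it is large -/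
  mem : T.Large carrier

variable {T : Tr}

/-- A set `W` of points is open if with every `A ∈ W` there are finite sets `s ⊆ A` and `E ∌ A`
such that all points `B ∉ E` with `s ⊆ B` are in `W`. -/
instance : TopologicalSpace (Pt T) where
  IsOpen W := ∀ A ∈ W, ∃ s : Set ℕ, s.Finite ∧ s ⊆ A.carrier ∧ ∃ E : Set (Pt T), E.Finite ∧
    A ∉ E ∧ ∀ B : Pt T, s ⊆ B.carrier → B ∉ E → B ∈ W
  isOpen_univ := fun _ _ => ⟨∅, Set.finite_empty, Set.empty_subset _, ∅, Set.finite_empty,
    Set.notMem_empty _, fun _ _ _ => Set.mem_univ _⟩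
  isOpen_inter := by
    intro W W' h h' A hA
    obtain ⟨s, hs, hsA, E, hE, hAE, hW⟩ := h A hA.1
    obtain ⟨s', hs', hsA', E', hE', hAE', hW'⟩ := h' A hA.2
    refine ⟨s ∪ s', hs.union hs', Set.union_subset hsA hsA', E ∪ E', hE.union hE', ?_, ?_⟩
    · rintro (h1 | h1)
      · exact hAE h1
      · exact hAE' h1
    · intro B hB hBE
      exact ⟨hW B (fun x hx => hB (Or.inl hx)) fun h => hBE (Or.inl h),
        hW' B (fun x hx => hB (Or.inr hx)) fun h => hBE (Or.inr h)⟩
  isOpen_sUnion := by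
    intro 𝒮 h A hA
    obtain ⟨W, hW, hAW⟩ := hA
    obtain ⟨s, hs, hsA, E, hE, hAE, hWW⟩ := h W hW A hAW
    exact ⟨s, hs, hsA, E, hE, hAE, fun B hB hBE => ⟨W, hW, hWW B hB hBE⟩⟩

theorem isOpen_iff (W : Set (Pt T)) : IsOpen W ↔ ∀ A ∈ W, ∃ s : Set ℕ, s.Finite ∧
    s ⊆ A.carrier ∧ ∃ E : Set (Pt T), E.Finite ∧ A ∉ E ∧
      ∀ B : Pt T, s ⊆ B.carrier → B ∉ E → B ∈ W :=
  Iff.rfl

instance : T1Space (Pt T) where
  t1 := by
    intro x
    rw [← isOpen_compl_iff, isOpen_iff]
    intro A hA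
    refine ⟨∅, Set.finite_empty, Set.empty_subset _, {x}, Set.finite_singleton x, hA, ?_⟩
    intro B _ hB
    exact hB

/-- `Lim` contains the limes inferior. -/
def Absorbing {X : Type} (Lim : (ℕ → Set X) → Set X) : Prop :=
  ∀ Y : ℕ → Set X, setLiminf Y ⊆ Lim Y

/-- The address number `j`. -/
def adr (j : ℕ) : List ℕ := Denumerable.ofNat (List ℕ) j

/-- The point (or set) `A` keeps the promises `w`: if the subtree at the address number `j` is
large for `A` then all its children from the number `w j` on are large for `A`. -/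
def Sat (T : Tr) (w : List ℕ) (A : Set ℕ) : Prop :=
  ∀ j, j < w.length → (T.sub (adr j)).Large A →
    ∀ n, w.getD j 0 ≤ n → ((T.sub (adr j)).child n).Large A

section main

variable {Lim : (ℕ → Set (Pt T)) → Set (Pt T)} (hLim : Absorbing Lim) {𝓤 : Set (Set (Pt T))}

/-- The key notion: some set in the closure contains `𝓔` and all points outside `N` that keep the
promises `w`. -/
def Good (Lim : (ℕ → Set (Pt T)) → Set (Pt T)) (𝓤 : Set (Set (Pt T))) (𝓔 N : Set (Pt T))
    (w : List ℕ) : Prop :=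
  ∃ Y : Set (Pt T), Closure Lim 𝓤 Y ∧ 𝓔 ⊆ Y ∧
    ∀ A : Pt T, Sat T w A.carrier → A ∉ N → A ∈ Y

include hLim

theorem good_of_promise {𝓔 N : Set (Pt T)} {w : List ℕ}
    (h : ∀ m, Good Lim 𝓤 𝓔 N (w ++ [m])) : Good Lim 𝓤 𝓔 N w := by
  choose Y hY hE hA using h
  refine ⟨Lim Y, Closure.lim Y hY, fun x hx => hLim Y ⟨0, fun n _ => hE n hx⟩, ?_⟩
  intro A hw hN
  -- the promise at the next address is kept from some number on
  have h1 : ∃ m₀, (T.sub (adr w.length)).Large A.carrier →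
      ∀ n, m₀ ≤ n → ((T.sub (adr w.length)).child n).Large A.carrier := by
    by_cases hL : (T.sub (adr w.length)).Large A.carrier
    · obtain ⟨m₀, hm₀⟩ := (Tr.large_iff _ _).1 hL
      exact ⟨m₀, fun _ => hm₀⟩
    · exact ⟨0, fun h => absurd h hL⟩
  obtain ⟨m₀, hm₀⟩ := h1
  refine hLim Y ⟨m₀, fun m hm => hA m A ?_ hN⟩
  intro j hj hL n hn
  rw [List.length_append, List.length_singleton] at hj
  rcases Nat.lt_succ_iff_lt_or_eq.1 hj with h2 | h2
  · refine hw j h2 hL n ?_
    rwa [List.getD_append _ _ _ _ h2] at hn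
  · subst h2
    refine hm₀ hL n (hm.trans ?_)
    rw [List.getD_append_right _ _ _ _ le_rfl, Nat.sub_self] at hn
    exact hn

/-- The fusion argument. -/
theorem good_nil {𝓔 N : Set (Pt T)} {S : Set (Set ℕ)}
    (hS : ∀ A : Pt T, ∃ s ∈ S, s.Finite ∧ s ⊆ A.carrier)
    (hleaf : ∀ s ∈ S, ∃ W ∈ 𝓤, 𝓔 ⊆ W ∧ ∀ B : Pt T, s ⊆ B.carrier → B ∉ N → B ∈ W) :
    Good Lim 𝓤 𝓔 N [] := by
  by_contra h0
  have step : ∀ w : List ℕ, ¬ Good Lim 𝓤 𝓔 N w → ∃ m, ¬ Good Lim 𝓤 𝓔 N (w ++ [m]) := by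
    intro w hw
    by_contra hcon
    push Not at hcon
    exact hw (good_of_promise hLim hcon)
  choose! g hg using step
  let w : ℕ → List ℕ := fun i => Nat.rec [] (fun _ v => v ++ [g v]) i
  have hws : ∀ i, w (i + 1) = w i ++ [g (w i)] := fun i => rfl
  have hwl : ∀ i, (w i).length = i := by
    intro i
    induction i with
    | zero => rfl
    | succ i ih => rw [hws, List.length_append, ih, List.length_singleton]
  have hwg : ∀ i j, j < i → (w i).getD j 0 = g (w j) := by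
    intro i
    induction i with
    | zero => intro j hj; exact absurd hj (Nat.not_lt_zero j)
    | succ i ih =>
      intro j hj
      rw [hws]
      rcases Nat.lt_succ_iff_lt_or_eq.1 hj with h2 | h2
      · rw [List.getD_append _ _ _ _ (by rw [hwl]; exact h2)]
        exact ih j h2
      · subst h2
        rw [List.getD_append_right _ _ _ _ (by rw [hwl]), hwl, Nat.sub_self]
        rfl
  have hbad : ∀ i, ¬ Good Lim 𝓤 𝓔 N (w i) := by
    intro i
    induction i with
    | zero => exact h0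
    | succ i ih => rw [hws]; exact hg _ ih
  -- the promises of the limit
  let M : List ℕ → ℕ := fun l => g (w (Encodable.encode l))
  have hadr : ∀ l : List ℕ, adr (Encodable.encode l) = l := fun l => Denumerable.ofNat_encode l
  let Req : ℕ → Set (List ℕ) := fun i => Nat.rec {[]}
    (fun _ R => {l | ∃ l' ∈ R, ∃ n, M l' ≤ n ∧ l = l' ++ [n]}) i
  have hReq : ∀ i, Req (i + 1) = {l | ∃ l' ∈ Req i, ∃ n, M l' ≤ n ∧ l = l' ++ [n]} :=
    fun i => rfl
  let A₀ : Set ℕ := {a | ∃ i, ∃ l ∈ Req i, T.sub l = Tr.leaf a}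
  have hlarge : ∀ t : Tr, ∀ i, ∀ l ∈ Req i, T.sub l = t → t.Large A₀ := by
    intro t
    induction t with
    | leaf a => exact fun i l hl h => ⟨i, l, hl, h⟩
    | node c ih =>
      intro i l hl h
      refine ⟨M l, fun n hn => ih n (i + 1) (l ++ [n]) ?_ ?_⟩
      · rw [hReq]
        exact ⟨l, hl, n, hn, rfl⟩
      · rw [Tr.sub_append, h]
        rfl
  have hA₀ : T.Large A₀ := hlarge T 0 [] rfl rfl
  obtain ⟨s, hsS, hsf, hs⟩ := hS ⟨A₀, hA₀⟩
  obtain ⟨W, hWU, hEW, hW⟩ := hleaf s hsS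
  -- the required subtrees are large for all points keeping enough promises
  have hkeep : ∀ i, ∀ l ∈ Req i, ∃ b, ∀ k, b ≤ k → ∀ A : Pt T, Sat T (w k) A.carrier →
      (T.sub l).Large A.carrier := by
    intro i
    induction i with
    | zero =>
      intro l hl
      have hl' : l = [] := hl
      subst hl'
      exact ⟨0, fun _ _ A _ => A.mem⟩
    | succ i ih =>
      intro l hl
      rw [hReq] at hl
      obtain ⟨l', hl', n, hn, rfl⟩ := hl
      obtain ⟨b, hb⟩ := ih l' hl'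
      refine ⟨max b (Encodable.encode l' + 1), fun k hk A hA => ?_⟩
      have h1 := hb k (le_trans (le_max_left _ _) hk) A hA
      have h2 : Encodable.encode l' < k :=
        lt_of_lt_of_le (Nat.lt_succ_self _) (le_trans (le_max_right _ _) hk)
      have h3 := hA (Encodable.encode l') (by rw [hwl]; exact h2)
      rw [hadr, hwg _ _ h2] at h3
      rw [Tr.sub_append]
      exact h3 h1 n hn
  have hx : ∀ x, x ∈ s → ∃ b, ∀ k, b ≤ k → ∀ A : Pt T, Sat T (w k) A.carrier →
      x ∈ A.carrier := by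
    intro x hx
    obtain ⟨i, l, hl, hlx⟩ := hs hx
    obtain ⟨b, hb⟩ := hkeep i l hl
    refine ⟨b, fun k hk A hA => ?_⟩
    have := hb k hk A hA
    rw [hlx] at this
    exact this
  choose! b hb using hx
  obtain ⟨k, hk⟩ := (hsf.image b).bddAbove
  refine hbad k ⟨W, Closure.base W hWU, hEW, fun A hA hN => hW A (fun x hx => ?_) hN⟩
  exact hb x hx k (hk (Set.mem_image_of_mem b hx)) A hA

/-- The closure contains a superset of the complement of some countable set. -/
theorem exists_cocountable (h𝓤 : IsOmegaCover 𝓤) (𝓔 : Set (Pt T)) (h𝓔 : 𝓔.Finite) :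
    ∃ (Y N : Set (Pt T)), Closure Lim 𝓤 Y ∧ 𝓔 ⊆ Y ∧ N.Countable ∧ Nᶜ ⊆ Y := by
  let S : Set (Set ℕ) := {s | s.Finite ∧ ∃ W ∈ 𝓤, 𝓔 ⊆ W ∧ ∃ E : Set (Pt T), E.Finite ∧
    ∀ B : Pt T, s ⊆ B.carrier → B ∉ E → B ∈ W}
  have hScount : S.Countable := by
    refine Set.Countable.mono (fun s hs => hs.1) (Set.countable_ofPred_finite_subset (s := Set.univ)
      Set.countable_univ |>.mono ?_)
    intro s hs
    exact ⟨hs, Set.subset_univ s⟩
  have hSe : ∀ s ∈ S, ∃ W ∈ 𝓤, 𝓔 ⊆ W ∧ ∃ E : Set (Pt T), E.Finite ∧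
    ∀ B : Pt T, s ⊆ B.carrier → B ∉ E → B ∈ W := fun s hs => hs.2
  choose! W hWU hEW E hE hW using hSe
  let N : Set (Pt T) := ⋃ s ∈ S, E s
  have hN : N.Countable := hScount.biUnion fun s hs => (hE s hs).countable
  have hS : ∀ A : Pt T, ∃ s ∈ S, s.Finite ∧ s ⊆ A.carrier := by
    intro A
    obtain ⟨V, hV, hAV⟩ := h𝓤.2.2 ({A} ∪ 𝓔) ((Set.finite_singleton A).union h𝓔)
    obtain ⟨s, hs, hsA, E', hE', _, hB⟩ := h𝓤.1 V hV A (hAV (Or.inl rfl))
    exact ⟨s, ⟨hs, V, hV, fun x hx => hAV (Or.inr hx), E', hE', hB⟩, hs, hsA⟩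
  have hleaf : ∀ s ∈ S, ∃ W ∈ 𝓤, 𝓔 ⊆ W ∧ ∀ B : Pt T, s ⊆ B.carrier → B ∉ N → B ∈ W :=
    fun s hs => ⟨W s, hWU s hs, hEW s hs, fun B hB hBN => hW s hs B hB fun h =>
      hBN (Set.mem_biUnion hs h)⟩
  obtain ⟨Y, hY, hEY, hYA⟩ := good_nil hLim (𝓔 := 𝓔) (N := N) hS hleaf
  refine ⟨Y, N, hY, hEY, hN, fun A hA => hYA A ?_ hA⟩
  intro j hj
  exact absurd hj (Nat.not_lt_zero j)

/-- The whole space is in the closure. -/
theorem closure_univ (h𝓤 : IsOmegaCover 𝓤) : Closure Lim 𝓤 Set.univ := by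
  have key := fun 𝓔 : Finset (Pt T) =>
    exists_cocountable hLim h𝓤 (𝓔 : Set (Pt T)) 𝓔.finite_toSet
  choose Y N hY hEY hN hNY using key
  -- a countable set closed under `N`
  let D : ℕ → Set (Pt T) := fun i => Nat.rec ∅
    (fun _ D => D ∪ ⋃ 𝓔 ∈ {𝓔 : Finset (Pt T) | (𝓔 : Set (Pt T)) ⊆ D}, N 𝓔) i
  have hDs : ∀ i, D (i + 1) = D i ∪ ⋃ 𝓔 ∈ {𝓔 : Finset (Pt T) | (𝓔 : Set (Pt T)) ⊆ D i}, N 𝓔 :=
    fun i => rfl
  have hDc : ∀ i, (D i).Countable := by
    intro i
    induction i with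
    | zero => exact Set.countable_empty
    | succ i ih =>
      rw [hDs]
      refine ih.union (Set.Countable.biUnion ?_ fun 𝓔 _ => hN 𝓔)
      have h1 := Set.countable_ofPred_finite_subset ih
      refine (h1.preimage_of_injOn (f := fun 𝓔 : Finset (Pt T) => (𝓔 : Set (Pt T))) ?_).mono ?_
      · exact Finset.coe_injective.injOn
      · intro 𝓔 h𝓔
        exact ⟨𝓔.finite_toSet, h𝓔⟩
  have hDmono : Monotone D := monotone_nat_of_le_succ fun i => by
    rw [hDs]; exact Set.subset_union_left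
  let Z : Set (Pt T) := ⋃ i, D i
  have hZc : Z.Countable := Set.countable_iUnion hDc
  have hZN : ∀ 𝓔 : Finset (Pt T), (𝓔 : Set (Pt T)) ⊆ Z → N 𝓔 ⊆ Z := by
    intro 𝓔 h𝓔
    have hx : ∀ x, x ∈ 𝓔 → ∃ i, x ∈ D i := fun x hx => Set.mem_iUnion.1 (h𝓔 hx)
    choose! i hi using hx
    obtain ⟨b, hb⟩ := (𝓔.finite_toSet.image i).bddAbove
    have hsub : (𝓔 : Set (Pt T)) ⊆ D b :=
      fun x hx => hDmono (hb (Set.mem_image_of_mem i hx)) (hi x hx)
    intro x hx
    refine Set.mem_iUnion.2 ⟨b + 1, ?_⟩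
    rw [hDs]
    exact Or.inr (Set.mem_biUnion
      (show 𝓔 ∈ {𝓔 : Finset (Pt T) | (𝓔 : Set (Pt T)) ⊆ D b} from hsub) hx)
  rcases Z.eq_empty_or_nonempty with hZ | hZ
  · have h0 : N ∅ ⊆ (∅ : Set (Pt T)) := by
      have := hZN ∅ (by simp)
      rwa [hZ] at this
    have : Y ∅ = Set.univ := by
      apply Set.eq_univ_of_forall
      intro x
      exact hNY ∅ fun h => h0 h
    rw [← this]
    exact hY ∅
  · obtain ⟨d, hd⟩ := hZc.exists_eq_range hZ
    classical
    let 𝓔 : ℕ → Finset (Pt T) := fun j => (Finset.range j).image d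
    have hsub : ∀ j, (𝓔 j : Set (Pt T)) ⊆ Z := by
      intro j x hx
      simp only [𝓔, Finset.coe_image, Set.mem_image] at hx
      obtain ⟨i, _, rfl⟩ := hx
      rw [hd]; exact Set.mem_range_self i
    have huniv : Lim (fun j => Y (𝓔 j)) = Set.univ := by
      apply Set.eq_univ_of_forall
      intro x
      apply hLim
      by_cases hx : x ∈ Z
      · rw [hd] at hx
        obtain ⟨i, rfl⟩ := hx
        refine ⟨i + 1, fun j hj => hEY (𝓔 j) ?_⟩
        simp only [𝓔, Finset.coe_image, Set.mem_image, Finset.coe_range, Set.mem_Iio]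
        exact ⟨i, hj, rfl⟩
      · exact ⟨0, fun j _ => hNY (𝓔 j) fun h => hx (hZN _ (hsub j) h)⟩
    rw [← huniv]
    exact Closure.lim _ fun j => hY _

end main

/-- The limes inferior is contained in the limit along a nonprincipal ultrafilter. -/
theorem absorbing_plim {X : Type} {p : Ultrafilter ℕ} (hp : Nonprincipal p) :
    Absorbing (plim (X := X) p) := by
  intro Y x hx
  obtain ⟨m, hm⟩ := hx
  have hfin : ∀ m : ℕ, {n | m ≤ n} ∈ p := by
    intro m
    induction m with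
    | zero =>
      simp only [Nat.zero_le, Set.ofPred_true]
      exact Filter.univ_mem (f := (p : Filter ℕ))
    | succ m ih =>
      have h2 : ({m} : Set ℕ)ᶜ ∈ p := Ultrafilter.compl_mem_iff_notMem.2 (hp m)
      filter_upwards [ih, h2] with n hn hn2
      have : n ≠ m := hn2
      have h3 : m ≤ n := hn
      show m + 1 ≤ n
      omega
  filter_upwards [hfin m] with n hn
  exact hm n hn

/-- The cover that is used against the gamma-properties: the points containing a given number. -/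
def badCover (T : Tr) : Set (Set (Pt T)) := Set.range fun x : ℕ => {A : Pt T | x ∈ A.carrier}

theorem badCover_isOmegaCover (hT : ∀ a, ∃ A, T.Large A ∧ a ∉ A) :
    IsOmegaCover (badCover T) := by
  refine ⟨?_, ?_, ?_⟩
  · rintro _ ⟨x, rfl⟩
    rw [isOpen_iff]
    intro A hA
    exact ⟨{x}, Set.finite_singleton x, by simpa using hA, ∅, Set.finite_empty,
      Set.notMem_empty _, fun B hB _ => hB rfl⟩
  · rintro ⟨x, hx⟩
    obtain ⟨A, hA, hxA⟩ := hT x
    have hmem : (⟨A, hA⟩ : Pt T) ∈ (Set.univ : Set (Pt T)) := Set.mem_univ _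
    rw [← hx] at hmem
    exact hxA hmem
  · intro s hs
    have h1 : T.Large {x | ∀ A ∈ s, x ∈ A.carrier} := by
      induction s, hs using Set.Finite.induction_on with
      | empty =>
        refine (Tr.large_univ T).mono ?_
        intro x _ A hA
        exact absurd hA (Set.notMem_empty A)
      | @insert A s _ _ ih =>
        refine (A.mem.inter ih).mono ?_
        rintro x ⟨hx1, hx2⟩ B (rfl | hB)
        · exact hx1
        · exact hx2 B hB
    obtain ⟨x, hx⟩ := h1.nonempty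
    exact ⟨_, ⟨x, rfl⟩, fun A hA => hx A hA⟩

/-- If the space of `T` has property `γ_q` then the filter of `T` is below `q`. -/
theorem below_of_hasGamma {q : Ultrafilter ℕ} (h : HasGamma (Pt T) q) :
    ∃ f : ℕ → ℕ, ∀ A : Set ℕ, T.Large A → f ⁻¹' A ∈ q := by
  by_cases hT : ∀ a, ∃ A, T.Large A ∧ a ∉ A
  · obtain ⟨U, hU, hx⟩ := h (badCover T) (badCover_isOmegaCover hT)
    choose f hf using hU
    refine ⟨f, fun A hA => ?_⟩
    have := hx ⟨A, hA⟩
    filter_upwards [this] with n hn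
    have h1 : (⟨A, hA⟩ : Pt T) ∈ U n := hn
    rw [← hf n] at h1
    exact h1
  · push Not at hT
    obtain ⟨a, ha⟩ := hT
    refine ⟨fun _ => a, fun A hA => ?_⟩
    have h1 : (fun _ : ℕ => a) ⁻¹' A = Set.univ := by
      ext n
      simp [ha A hA]
    rw [h1]
    exact Filter.univ_mem (f := (q : Filter ℕ))

end Pool.Agent.Helper85.DT
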